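import Pool.Agent.P.MP_038aca_al.Lower2
import Pool.Agent.P.MP_038aca_al.Small

open Pool.Agent.P.MP_038aca_al

/-- The simple-curve diameters `d_n` of the lower central quotients of the fundamental group of the
surface with `g` handles, `k` crosscaps and `p` punctures are bounded by, and eventually equal to,
`limitValue g k p`. -/
theorem Pool.Agent.Results.MP_038aca_al.Limit.result (g k p : ℕ) (hgk : 1 ≤ g ∨ k ≤ 2)
    (C : Set (SurfaceGroup g k p)) (hC : C.Finite) (hstd : standardCurves g k p ⊆ C) :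
    (∀ n : ℕ, lcsDiameter (orbitSet C) n ≤ limitValue g k p) ∧
      ∃ n₀ : ℕ, ∀ n ≥ n₀, lcsDiameter (orbitSet C) n = limitValue g k p := by
  cases g with
  | zero =>
    have hk : k ≤ 2 := by omega
    by_cases h0 : k = 0 ∧ p ≤ 1
    · obtain ⟨rfl, hp⟩ := h0
      have hv : limitValue 0 0 p = (0 : ℕ) := by simp [limitValue, hp]
      rw [hv]
      exact ⟨trivial_zero hp _, 0, fun n _ => le_antisymm (trivial_zero hp _ n) (by simp)⟩
    by_cases h1 : k = 1 ∧ p = 0
    · obtain ⟨rfl, rfl⟩ := h1
      have hv : limitValue 0 1 0 = (0 + 1 : ℕ) := by simp [limitValue]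
      rw [hv]
      exact ⟨proj_upper hstd, eventually_eq_succ _ 0 (proj_upper hstd) ⟨1, proj_lower _⟩⟩
    have hv : limitValue 0 k p = ⊤ := by simp only [limitValue, if_true, if_neg h0, if_neg h1]
    rw [hv]
    refine ⟨fun _ => le_top, eventually_eq_top _ ?_⟩
    interval_cases k
    · obtain ⟨p, rfl⟩ : ∃ q, p = q + 2 := ⟨p - 2, by omega⟩
      exact planar_top hC
    · obtain ⟨p, rfl⟩ : ∃ q, p = q + 1 := ⟨p - 1, by omega⟩
      exact moebius_top hC
    · exact klein_top hC
  | succ g =>
    by_cases h0 : g = 0 ∧ k = 0 ∧ p = 0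
    · obtain ⟨rfl, rfl, rfl⟩ := h0
      have hv : limitValue (0 + 1) 0 0 = (1 + 1 : ℕ) := by simp [limitValue]
      rw [hv]
      exact ⟨torus_upper hstd, eventually_eq_succ _ 1 (torus_upper hstd) ⟨1, torus_lower hC⟩⟩
    have hv : limitValue (g + 1) k p = (2 * (g + 1) + k + (p - 1) + 1 : ℕ) := by
      rw [limitValue, if_neg (by omega), if_neg (by omega)]
    rw [hv]
    refine ⟨upper_bound hstd, eventually_eq_succ _ _ (upper_bound hstd) ?_⟩
    cases p with
    | zero => exact lower_closed (by omega) C hC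
    | succ p => exact lower_punctured (by omega) C hC
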